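import Pool.Agent.SKQ.Stmts
import Pool.Agent.SKQ.Kit

/-!
# Squad SKQ, row OSS: oscillation on the boundary of a cube, smooth functions
-/

set_option autoImplicit false

open Metric Set Filter Topology MeasureTheory
open scoped ENNReal
open Helper22QC

namespace Pool.Agent.SKQ.H24

variable {m : ℕ}

/-- the point with coordinate `u` at `i` and the other coordinates `z` -/
noncomputable def io (i : Fin (m + 1)) (u : ℝ) (z : Fin m → ℝ) : E (m + 1) :=
  WithLp.toLp 2 (i.insertNth u z : Fin (m + 1) → ℝ)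

theorem io_same (i : Fin (m + 1)) (u : ℝ) (z : Fin m → ℝ) : io i u z i = u := by
  show (i.insertNth u z : Fin (m + 1) → ℝ) i = u
  simp

theorem io_succAbove (i : Fin (m + 1)) (u : ℝ) (z : Fin m → ℝ) (k : Fin m) :
    io i u z (i.succAbove k) = z k := by
  show (i.insertNth u z : Fin (m + 1) → ℝ) (i.succAbove k) = z k
  simp

theorem ext_io (i : Fin (m + 1)) {x y : E (m + 1)} (h : x i = y i)
    (h' : ∀ k, x (i.succAbove k) = y (i.succAbove k)) : x = y := by
  ext k
  rcases Fin.eq_self_or_eq_succAbove i k with rfl | ⟨j, rfl⟩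
  · exact h
  · exact h' j

/-- the linear part -/
noncomputable def Li (i : Fin (m + 1)) : (Fin m → ℝ) →L[ℝ] E (m + 1) :=
  LinearMap.toContinuousLinearMap
    { toFun := fun z => io i 0 z
      map_add' := fun z z' => by
        refine ext_io i ?_ fun k => ?_
        · show io i 0 (z + z') i = io i 0 z i + io i 0 z' i
          rw [io_same, io_same, io_same, add_zero]
        · show io i 0 (z + z') _ = io i 0 z _ + io i 0 z' _
          rw [io_succAbove, io_succAbove, io_succAbove]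
          rfl
      map_smul' := fun r z => by
        refine ext_io i ?_ fun k => ?_
        · show io i 0 (r • z) i = r * io i 0 z i
          rw [io_same, io_same, mul_zero]
        · show io i 0 (r • z) _ = r * io i 0 z _
          rw [io_succAbove, io_succAbove]
          rfl }

theorem Li_apply (i : Fin (m + 1)) (z : Fin m → ℝ) : Li i z = io i 0 z := rfl

theorem io_eq (i : Fin (m + 1)) (u : ℝ) :
    (io i u : (Fin m → ℝ) → E (m + 1)) = fun z => io i u 0 + Li i z := by
  funext z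
  refine ext_io i ?_ fun k => ?_
  · show io i u z i = io i u 0 i + io i 0 z i
    rw [io_same, io_same, io_same, add_zero]
  · show io i u z _ = io i u 0 _ + io i 0 z _
    rw [io_succAbove, io_succAbove, io_succAbove]
    simp

theorem hasFDerivAt_io (i : Fin (m + 1)) (u : ℝ) (z : Fin m → ℝ) :
    HasFDerivAt (io i u) (Li i) z := by
  rw [io_eq]
  exact (Li i).hasFDerivAt.const_add _

theorem contDiff_io (i : Fin (m + 1)) (u : ℝ) :
    ContDiff ℝ (⊤ : ℕ∞) (io i u : (Fin m → ℝ) → E (m + 1)) := by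
  rw [io_eq]
  exact contDiff_const.add (Li i).contDiff

/-- slicing -/
theorem slice (h : E (m + 1) → ℝ) (hc : Continuous h) (h0 : ∀ z, 0 ≤ h z) (c : E (m + 1)) (a : ℝ)
    (i : Fin (m + 1)) (σ : ℝ ≃ₜ ℝ) (hσ : MeasurePreserving σ volume volume)
    (hσ' : ∀ t, |σ t - c i| = |t|) (c' : Fin m → ℝ) (hc' : ∀ k, c' k = c (i.succAbove k))
    (ha : 0 < a) :
    IntegrableOn (fun t => ∫ z in closedBall c' (2 * a), h (io i (σ t) z)) (Icc a (2 * a)) ∧
    ∫ t in Icc a (2 * a), ∫ z in closedBall c' (2 * a), h (io i (σ t) z) ≤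
      ∫ z in cube c (2 * a), h z := by
  obtain ⟨e, he⟩ : ∃ e : ℝ × (Fin m → ℝ) ≃ᵐ E (m + 1),
      e = ((σ.toMeasurableEquiv.prodCongr (MeasurableEquiv.refl (Fin m → ℝ))).trans
        (MeasurableEquiv.piFinSuccAbove (fun _ => ℝ) i).symm).trans
        (MeasurableEquiv.toLp 2 (Fin (m + 1) → ℝ)) := ⟨_, rfl⟩
  have hev : ∀ p, e p = io i (σ p.1) p.2 := by
    intro p
    rw [he]
    rfl
  have hmp : MeasurePreserving e (volume.prod volume) volume := by
    have h1 : MeasurePreserving (Prod.map σ (id : (Fin m → ℝ) → (Fin m → ℝ)))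
        (volume.prod volume) (volume.prod volume) := hσ.prod (MeasurePreserving.id _)
    have h2 := (volume_preserving_piFinSuccAbove (fun _ : Fin (m + 1) => ℝ) i).symm
    have h3 := PiLp.volume_preserving_toLp (Fin (m + 1))
    have h4 := (h3.comp h2).comp h1
    have h5 : (e : ℝ × (Fin m → ℝ) → E (m + 1)) =
        (@WithLp.toLp 2 (Fin (m + 1) → ℝ) ∘
        ((MeasurableEquiv.piFinSuccAbove (fun _ => ℝ) i).symm)) ∘
        (Prod.map σ (id : (Fin m → ℝ) → (Fin m → ℝ))) := by
      rw [he]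
      rfl
    rw [h5]
    exact h4
  have hcon : Continuous fun p : ℝ × (Fin m → ℝ) => io i (σ p.1) p.2 := by
    have h1 : (fun p : ℝ × (Fin m → ℝ) => io i (σ p.1) p.2) =
        fun p => WithLp.toLp 2 (i.insertNth (σ p.1) p.2 : Fin (m + 1) → ℝ) := rfl
    rw [h1]
    refine (PiLp.continuous_toLp 2 _).comp ?_
    refine continuous_pi fun k => ?_
    rcases Fin.eq_self_or_eq_succAbove i k with rfl | ⟨j, rfl⟩
    · simp only [Fin.insertNth_apply_same]
      exact σ.continuous.comp continuous_fst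
    · simp only [Fin.insertNth_apply_succAbove]
      fun_prop
  have hint : IntegrableOn (fun p : ℝ × (Fin m → ℝ) => h (io i (σ p.1) p.2))
      (Icc a (2 * a) ×ˢ closedBall c' (2 * a)) (volume.prod volume) :=
    (hc.comp hcon).continuousOn.integrableOn_compact
      (isCompact_Icc.prod (isCompact_closedBall _ _))
  have hfub := setIntegral_prod _ hint
  refine ⟨?_, ?_⟩
  · have h1 := hint
    unfold IntegrableOn at h1
    rw [← Measure.prod_restrict] at h1
    exact h1.integral_prod_left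
  · rw [← hfub]
    have h1 : ∫ z in Icc a (2 * a) ×ˢ closedBall c' (2 * a), h (io i (σ z.1) z.2)
        ∂(volume.prod volume) =
        ∫ y in e '' (Icc a (2 * a) ×ˢ closedBall c' (2 * a)), h y := by
      rw [hmp.setIntegral_image_emb e.measurableEmbedding]
      simp only [hev]
    rw [h1]
    refine setIntegral_mono_set ?_ (Eventually.of_forall h0) (Eventually.of_forall ?_)
    · exact hc.continuousOn.integrableOn_compact (isCompact_cube c (2 * a))
    · rintro _ ⟨p, hp, rfl⟩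
      show e p ∈ cube c (2 * a)
      rw [hev]
      obtain ⟨hp1, hp2⟩ := hp
      intro k
      rcases Fin.eq_self_or_eq_succAbove i k with rfl | ⟨j, rfl⟩
      · rw [io_same, hσ', abs_of_nonneg (ha.le.trans hp1.1)]
        exact hp1.2
      · rw [io_succAbove, ← hc']
        have h2 := (dist_le_pi_dist p.2 c' j).trans (mem_closedBall.1 hp2)
        rwa [Real.dist_eq] at h2

/-- the two coordinates -/
noncomputable def sg (c : E (m + 1)) (p : Fin (m + 1) × Bool) : ℝ ≃ₜ ℝ :=
  match p.2 with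
  | true => Homeomorph.addLeft (c p.1)
  | false => Homeomorph.subLeft (c p.1)

theorem sg_true (c : E (m + 1)) (i : Fin (m + 1)) (t : ℝ) : sg c (i, true) t = c i + t := rfl

theorem sg_false (c : E (m + 1)) (i : Fin (m + 1)) (t : ℝ) : sg c (i, false) t = c i - t := rfl

theorem sg_mp (c : E (m + 1)) (p : Fin (m + 1) × Bool) :
    MeasurePreserving (sg c p) volume volume := by
  obtain ⟨i, b⟩ := p
  cases b
  · exact Measure.measurePreserving_sub_left volume (c i)
  · exact measurePreserving_add_left volume (c i)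

theorem sg_abs (c : E (m + 1)) (p : Fin (m + 1) × Bool) (t : ℝ) :
    |sg c p t - c p.1| = |t| := by
  obtain ⟨i, b⟩ := p
  cases b
  · rw [sg_false, sub_sub_cancel_left, abs_neg]
  · rw [sg_true, add_sub_cancel_left]

/-- the faces -/
def Fc (c : E (m + 1)) (t : ℝ) (p : Fin (m + 1) × Bool) (x : E (m + 1)) : Prop :=
  x p.1 = sg c p t ∧ ∀ k, |x k - c k| ≤ t

theorem Fc_of_bcube {c : E (m + 1)} {t : ℝ} {x : E (m + 1)} (hx : x ∈ bcube c t) :
    ∃ p, Fc c t p x := by
  obtain ⟨h1, i, h2⟩ := hx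
  rcases le_total 0 (x i - c i) with h3 | h3
  · rw [abs_of_nonneg h3] at h2
    refine ⟨(i, true), ?_, h1⟩
    rw [sg_true, ← h2]
    ring
  · rw [abs_of_nonpos h3] at h2
    refine ⟨(i, false), ?_, h1⟩
    rw [sg_false, ← h2]
    ring

theorem Fc_inter {c : E (m + 1)} {t : ℝ} (ht : 0 ≤ t) {p q : Fin (m + 1) × Bool}
    (h : p.1 ≠ q.1) : ∃ z, Fc c t p z ∧ Fc c t q z := by
  classical
  obtain ⟨z, hz⟩ : ∃ z : E (m + 1), ∀ k, z k =
      if k = p.1 then sg c p t else if k = q.1 then sg c q t else c k :=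
    ⟨WithLp.toLp 2 fun k => if k = p.1 then sg c p t else if k = q.1 then sg c q t else c k,
      fun _ => rfl⟩
  have h2 : ∀ k, |z k - c k| ≤ t := by
    intro k
    rw [hz]
    split_ifs with h3 h4
    · rw [h3, sg_abs, abs_of_nonneg ht]
    · rw [h4, sg_abs, abs_of_nonneg ht]
    · rw [sub_self, abs_zero]
      exact ht
  refine ⟨z, ⟨?_, h2⟩, ⟨?_, h2⟩⟩
  · rw [hz, if_pos rfl]
  · rw [hz, if_neg h.symm, if_pos rfl]

theorem oss (fmo : FMOStmt) : OSSStmt := by
  intro n hn
  obtain ⟨m, rfl⟩ : ∃ m, n = m + 1 := ⟨n - 1, by omega⟩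
  have hm : 1 ≤ m := by omega
  obtain ⟨C, hC, hF⟩ := fmo m hm
  obtain ⟨K, hK, hKL⟩ : ∃ K : ℝ, 0 < K ∧ ∀ i : Fin (m + 1), ‖(Li i : (Fin m → ℝ) →L[ℝ] E (m + 1))‖ ≤ K := by
    refine ⟨1 + ∑ i : Fin (m + 1), ‖(Li i : (Fin m → ℝ) →L[ℝ] E (m + 1))‖, ?_, ?_⟩
    · have : 0 ≤ ∑ i : Fin (m + 1), ‖(Li i : (Fin m → ℝ) →L[ℝ] E (m + 1))‖ :=
        Finset.sum_nonneg fun i _ => norm_nonneg _
      linarith
    · intro i
      have := Finset.single_le_sum (f := fun i : Fin (m + 1) =>
        ‖(Li i : (Fin m → ℝ) →L[ℝ] E (m + 1))‖) (fun i _ => norm_nonneg _) (Finset.mem_univ i)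
      linarith
  refine ⟨3 ^ (m + 1) * (4 * (m + 1) * C * K ^ (m + 1)), by positivity, ?_⟩
  intro k w c a ha hw
  obtain ⟨h, hh⟩ : ∃ h : E (m + 1) → ℝ, h = fun z => ∑ j, ‖gr (fderiv ℝ (w j) z)‖ ^ (m + 1) :=
    ⟨_, rfl⟩
  obtain ⟨I, hI⟩ : ∃ I : ℝ, I = ∫ z in cube c (2 * a), h z := ⟨_, rfl⟩
  have hcont : Continuous h := by
    rw [hh]
    exact continuous_finsetSum _ fun j _ => ((continuous_grad (hw j)).norm.pow _)
  have h0 : ∀ z, 0 ≤ h z := by
    intro z
    rw [hh]
    exact Finset.sum_nonneg fun j _ => by positivity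
  have hI0 : 0 ≤ I := by
    rw [hI]
    exact integral_nonneg h0
  obtain ⟨c', hc'⟩ : ∃ c' : Fin (m + 1) → Fin m → ℝ, ∀ i k, c' i k = c (i.succAbove k) :=
    ⟨fun i k => c (i.succAbove k), fun _ _ => rfl⟩
  obtain ⟨T, hT⟩ : ∃ T : Fin (m + 1) × Bool → ℝ → ℝ, ∀ p t, T p t =
      ∫ z in closedBall (c' p.1) (2 * a), h (io p.1 (sg c p t) z) := ⟨_, fun _ _ => rfl⟩
  have hT0 : ∀ p t, 0 ≤ T p t := by
    intro p t
    rw [hT]
    exact integral_nonneg fun z => h0 _
  have hsl : ∀ p, IntegrableOn (T p) (Icc a (2 * a)) ∧ ∫ t in Icc a (2 * a), T p t ≤ I := by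
    intro p
    have h1 := slice h hcont h0 c a p.1 (sg c p) (sg_mp c p) (sg_abs c p) (c' p.1) (hc' p.1) ha
    have h2 : T p = fun t => ∫ z in closedBall (c' p.1) (2 * a), h (io p.1 (sg c p t) z) := by
      funext t
      exact hT p t
    rw [h2, hI]
    exact h1
  -- the choice of `t`
  obtain ⟨t, ht, hFt⟩ : ∃ t ∈ Icc a (2 * a), ∑ p, T p t ≤ 2 * (m + 1) * I / a := by
    have hv : (volume (Icc a (2 * a))) = ENNReal.ofReal a := by
      rw [Real.volume_Icc]
      congr 1
      ring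
    have h1 : volume (Icc a (2 * a)) ≠ 0 := by
      rw [hv]
      simpa using ha
    have h2 : volume (Icc a (2 * a)) ≠ ⊤ := by
      rw [hv]
      exact ENNReal.ofReal_ne_top
    have h3 : IntegrableOn (fun t => ∑ p, T p t) (Icc a (2 * a)) :=
      integrable_finsetSum _ fun p _ => (hsl p).1
    obtain ⟨t, ht, h4⟩ := exists_le_setAverage h1 h2 h3
    refine ⟨t, ht, h4.trans ?_⟩
    rw [setAverage_eq]
    have h5 : volume.real (Icc a (2 * a)) = a := by
      unfold Measure.real
      rw [hv, ENNReal.toReal_ofReal ha.le]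
    have h6 : ∫ t in Icc a (2 * a), ∑ p, T p t ≤ 2 * (m + 1) * I := by
      rw [integral_finsetSum _ fun p _ => (hsl p).1]
      calc ∑ p, ∫ t in Icc a (2 * a), T p t ≤ ∑ _p : Fin (m + 1) × Bool, I :=
            Finset.sum_le_sum fun p _ => (hsl p).2
        _ = 2 * (m + 1) * I := by
            rw [Finset.sum_const, Finset.card_univ, Fintype.card_prod, Fintype.card_fin,
              Fintype.card_bool, nsmul_eq_mul]
            push_cast
            ring
    rw [h5, smul_eq_mul, inv_mul_eq_div]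
    exact div_le_div_of_nonneg_right h6 ha.le
  have hTt : ∀ p, T p t ≤ 2 * (m + 1) * I / a := fun p =>
    (Finset.single_le_sum (fun p _ => hT0 p t) (Finset.mem_univ p)).trans hFt
  have ht0 : 0 < t := ha.trans_le ht.1
  obtain ⟨B, hB⟩ : ∃ B : ℝ, B = 4 * (m + 1) * C * K ^ (m + 1) * I := ⟨_, rfl⟩
  have hB0 : 0 ≤ B := by
    rw [hB]
    positivity
  -- the faces
  have hface : ∀ (p : Fin (m + 1) × Bool) (j : Fin k) (x y : E (m + 1)), Fc c t p x → Fc c t p y →
      |w j x - w j y| ^ (m + 1) ≤ B := by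
    rintro p j x y ⟨hx1, hx2⟩ ⟨hy1, hy2⟩
    obtain ⟨ψ, hψ⟩ : ∃ ψ : (Fin m → ℝ) → ℝ, ψ = fun z => w j (io p.1 (sg c p t) z) := ⟨_, rfl⟩
    have hψs : ContDiff ℝ (⊤ : ℕ∞) ψ := by
      rw [hψ]
      exact (hw j).comp (contDiff_io _ _)
    have hψ1 : ContDiff ℝ 1 ψ := hψs.of_le (by exact_mod_cast le_top)
    have hpt : ∀ v : E (m + 1), v p.1 = sg c p t → (∀ k, |v k - c k| ≤ t) →
        ∃ v' ∈ closedBall (c' p.1) t, io p.1 (sg c p t) v' = v := by
      intro v hv1 hv2
      refine ⟨fun k => v (p.1.succAbove k), ?_, ?_⟩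
      · rw [mem_closedBall, dist_pi_le_iff ht0.le]
        intro k
        rw [hc', Real.dist_eq]
        exact hv2 _
      · refine ext_io p.1 ?_ fun k => ?_
        · rw [io_same, hv1]
        · rw [io_succAbove]
    obtain ⟨x', hx', hxx⟩ := hpt x hx1 hx2
    obtain ⟨y', hy', hyy⟩ := hpt y hy1 hy2
    have h1 := hF ψ (c' p.1) t hψ1 ht0 x' hx' y' hy'
    have h2 : ψ x' = w j x := by rw [hψ]; show w j (io _ _ x') = _; rw [hxx]
    have h3 : ψ y' = w j y := by rw [hψ]; show w j (io _ _ y') = _; rw [hyy]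
    rw [h2, h3] at h1
    have hder : ∀ z, ‖fderiv ℝ ψ z‖ ^ (m + 1) ≤ K ^ (m + 1) * h (io p.1 (sg c p t) z) := by
      intro z
      have h4 : HasFDerivAt ψ ((fderiv ℝ (w j) (io p.1 (sg c p t) z)).comp (Li p.1)) z := by
        rw [hψ]
        have h5 : DifferentiableAt ℝ (w j) (io p.1 (sg c p t) z) :=
          (hw j).differentiable (by simp) _
        exact h5.hasFDerivAt.comp z (hasFDerivAt_io _ _ _)
      rw [h4.fderiv]
      have h5 : ‖(fderiv ℝ (w j) (io p.1 (sg c p t) z)).comp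
          (Li p.1 : (Fin m → ℝ) →L[ℝ] E (m + 1))‖ ≤
          K * ‖gr (fderiv ℝ (w j) (io p.1 (sg c p t) z))‖ := by
        rw [norm_gr, mul_comm]
        exact (ContinuousLinearMap.opNorm_comp_le _ _).trans
          (mul_le_mul_of_nonneg_left (hKL _) (norm_nonneg _))
      refine (pow_le_pow_left₀ (norm_nonneg _) h5 _).trans ?_
      rw [mul_pow]
      refine mul_le_mul_of_nonneg_left ?_ (by positivity)
      rw [hh]
      exact Finset.single_le_sum (f := fun j => ‖gr (fderiv ℝ (w j) (io p.1 (sg c p t) z))‖ ^ (m + 1))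
        (fun j _ => by positivity) (Finset.mem_univ j)
    have hci : Continuous fun z => h (io p.1 (sg c p t) z) :=
      hcont.comp (contDiff_io _ _).continuous
    have hint2 : IntegrableOn (fun z => K ^ (m + 1) * h (io p.1 (sg c p t) z))
        (closedBall (c' p.1) (2 * a)) :=
      (continuous_const.mul hci).continuousOn.integrableOn_compact (isCompact_closedBall _ _)
    have hsub : closedBall (c' p.1) t ⊆ closedBall (c' p.1) (2 * a) := closedBall_subset_closedBall ht.2
    have hint1 : IntegrableOn (fun z => ‖fderiv ℝ ψ z‖ ^ (m + 1)) (closedBall (c' p.1) t) :=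
      (((hψ1.continuous_fderiv (by simp)).norm.pow _).continuousOn).integrableOn_compact
        (isCompact_closedBall _ _)
    have h6 : ∫ z in closedBall (c' p.1) t, ‖fderiv ℝ ψ z‖ ^ (m + 1) ≤ K ^ (m + 1) * T p t := by
      calc ∫ z in closedBall (c' p.1) t, ‖fderiv ℝ ψ z‖ ^ (m + 1) ≤
          ∫ z in closedBall (c' p.1) t, K ^ (m + 1) * h (io p.1 (sg c p t) z) :=
            setIntegral_mono hint1 (hint2.mono_set hsub) hder
        _ ≤ ∫ z in closedBall (c' p.1) (2 * a), K ^ (m + 1) * h (io p.1 (sg c p t) z) :=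
            setIntegral_mono_set hint2
              (Eventually.of_forall fun z => mul_nonneg (by positivity) (h0 _))
              (Eventually.of_forall hsub)
        _ = K ^ (m + 1) * T p t := by
            rw [hT, integral_const_mul]
    have hn0 : (0 : ℝ) ≤ ∫ z in closedBall (c' p.1) t, ‖fderiv ℝ ψ z‖ ^ (m + 1) :=
      integral_nonneg fun z => by positivity
    calc |w j x - w j y| ^ (m + 1) ≤
        C * t * ∫ z in closedBall (c' p.1) t, ‖fderiv ℝ ψ z‖ ^ (m + 1) := h1
      _ ≤ C * (2 * a) * (K ^ (m + 1) * (2 * (m + 1) * I / a)) := by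
          refine mul_le_mul ?_ (h6.trans (mul_le_mul_of_nonneg_left (hTt p) (by positivity))) hn0
            (by positivity)
          exact mul_le_mul_of_nonneg_left ht.2 hC.le
      _ = B := by
          rw [hB]
          field_simp
          ring
  obtain ⟨D, hD0, hD⟩ : ∃ D : ℝ, 0 ≤ D ∧ D ^ (m + 1) = B :=
    ⟨B ^ (((m + 1 : ℕ) : ℝ)⁻¹), Real.rpow_nonneg hB0 _, Real.rpow_inv_natCast_pow hB0 (by omega)⟩
  have hface' : ∀ (p : Fin (m + 1) × Bool) (j : Fin k) (x y : E (m + 1)), Fc c t p x → Fc c t p y →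
      |w j x - w j y| ≤ D := by
    intro p j x y hx hy
    have h1 := hface p j x y hx hy
    rw [← hD] at h1
    exact le_of_pow_le_pow_left₀ (by omega) hD0 h1
  have htri : ∀ (j : Fin k) (x y z : E (m + 1)), |w j x - w j z| ≤
      |w j x - w j y| + |w j y - w j z| := fun j x y z => abs_sub_le _ _ _
  refine ⟨t, ht.1, ht.2, ?_⟩
  intro j x hx y hy
  have hmain : |w j x - w j y| ≤ 3 * D := by
    obtain ⟨p, hp⟩ := Fc_of_bcube hx
    obtain ⟨q, hq⟩ := Fc_of_bcube hy
    by_cases hpq : p.1 = q.1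
    · obtain ⟨i, hi⟩ : ∃ i : Fin (m + 1), i ≠ p.1 := by
        have : Nontrivial (Fin (m + 1)) := Fin.nontrivial_iff_two_le.2 (by omega)
        exact exists_ne _
      obtain ⟨z1, h1, h2⟩ := Fc_inter (c := c) ht0.le (p := p) (q := (i, true)) hi.symm
      obtain ⟨z2, h3, h4⟩ := Fc_inter (c := c) ht0.le (p := q) (q := (i, true))
        (by rw [← hpq]; exact hi.symm)
      have e1 := hface' p j x z1 hp h1
      have e2 := hface' (i, true) j z1 z2 h2 h4
      have e3 := hface' q j z2 y h3 hq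
      have e4 := htri j x z1 y
      have e5 := htri j z1 z2 y
      linarith
    · obtain ⟨z, h1, h2⟩ := Fc_inter (c := c) ht0.le (p := p) (q := q) hpq
      have e1 := hface' p j x z hp h1
      have e2 := hface' q j z y h2 hq
      have e4 := htri j x z y
      linarith
  calc |w j x - w j y| ^ (m + 1) ≤ (3 * D) ^ (m + 1) :=
        pow_le_pow_left₀ (abs_nonneg _) hmain _
    _ = 3 ^ (m + 1) * B := by rw [mul_pow, hD]
    _ = 3 ^ (m + 1) * (4 * (m + 1) * C * K ^ (m + 1)) *
        ∫ z in cube c (2 * a), ∑ j, ‖gr (fderiv ℝ (w j) z)‖ ^ (m + 1) := by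
          rw [hB, hI, hh]
          ring

end Pool.Agent.SKQ.H24
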